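import Pool.Agent.helper64.OT.SpecD

/-!
# Project OT (MP_f6e9a2_nt), row D1: the duality bound
-/

set_option autoImplicit false

namespace Pool.Agent.OT

open Finset Pool.Agent.SPI

/-- step 1: the majorant of the interval -/
theorem D1_maj (hMAJ : MAJ_stmt) (p : ℕ) [Fact p.Prime] (N T : ℕ) (F : ZMod p → ℂ) (hT : 0 < T) (hN : 0 < N)
    (h8 : 8 * T * N ≤ p) :
    ∑ n ∈ range N, ‖F (n : ZMod p)‖ ^ 2 ≤ 2 * ∑ x : ZMod p, psi T x * ‖F x‖ ^ 2 := by
  have hNp : N ≤ p := by nlinarith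
  have hval : ∀ n ∈ range N, ((n : ℕ) : ZMod p).val = n := fun n hn =>
    ZMod.val_natCast_of_lt (lt_of_lt_of_le (mem_range.1 hn) hNp)
  have hpsi : ∀ x : ZMod p, 0 ≤ psi T x := fun x => by
    unfold psi
    positivity
  have h1 : ∑ n ∈ range N, ‖F (n : ZMod p)‖ ^ 2 ≤ ∑ n ∈ range N, 2 * (psi T (n : ZMod p) * ‖F (n : ZMod p)‖ ^ 2) := by
    refine sum_le_sum fun n hn => ?_
    have h2 : 1 / 2 ≤ psi T (n : ZMod p) := by
      apply hMAJ p T _ hT
      rw [hval n hn]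
      refine le_trans ?_ h8
      exact Nat.mul_le_mul_left _ (mem_range.1 hn).le
    have h3 : 0 ≤ ‖F (n : ZMod p)‖ ^ 2 := by positivity
    nlinarith
  have hinj : Set.InjOn (fun n : ℕ => (n : ZMod p)) (range N : Set ℕ) := by
    intro a ha b hb hab
    have h2 := congrArg ZMod.val hab
    dsimp only at h2
    rw [hval a (mem_coe.1 ha), hval b (mem_coe.1 hb)] at h2
    exact h2
  refine h1.trans ?_
  rw [← mul_sum]
  refine mul_le_mul_of_nonneg_left ?_ (by norm_num)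
  rw [← sum_image (f := fun x : ZMod p => psi T x * ‖F x‖ ^ 2) (g := fun n : ℕ => (n : ZMod p)) hinj]
  exact sum_le_sum_of_subset_of_nonneg (subset_univ _) fun x _ _ => mul_nonneg (hpsi x) (by positivity)

theorem D1_norm (p : ℕ) (N T k : ℕ) (hp : 0 < p) (h8 : 8 * T * N ≤ p) :
    ‖(-(2 * Real.pi * T * N / p : ℝ) * Complex.I) ^ k / (k.factorial : ℂ)‖ ≤ 1 / (k.factorial : ℝ) := by
  have hp0 : (0 : ℝ) < p := by exact_mod_cast hp
  have h1 : (8 : ℝ) * T * N ≤ p := by exact_mod_cast h8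
  have hx0 : 0 ≤ (2 * Real.pi * T * N / p : ℝ) := by positivity
  have hx1 : (2 * Real.pi * T * N / p : ℝ) ≤ 1 := by
    rw [div_le_one hp0]
    have h2 : Real.pi ≤ 4 := Real.pi_le_four
    have h3 : (0 : ℝ) ≤ T * N := by positivity
    nlinarith
  rw [norm_div, norm_pow, norm_mul, norm_neg, Complex.norm_I, mul_one, Complex.norm_real, Real.norm_of_nonneg hx0,
    Complex.norm_natCast]
  exact div_le_div_of_nonneg_right (pow_le_one₀ hx0 hx1) (by positivity)

theorem D1_GN {p : ℕ} [NeZero p] (χ : MulChar (ZMod p) ℂ) (N T : ℕ) (B : Finset (ZMod p)) (w w' : ℕ → ℝ)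
    (γ : ZMod p → ℂ) (t : ZMod p) (h : ∀ s < T, w s = w' s) : GN χ N T B w γ t = GN χ N T B w' γ t := by
  unfold GN
  refine sum_congr rfl fun j _ => ?_
  congr 1
  refine sum_congr rfl fun s hs => ?_
  rw [h s (mem_range.1 hs)]

theorem D1 (hMAJ : MAJ_stmt) (hPGS : PGS_stmt) (hTAY : TAY_stmt) (hEXP : EXP_stmt) (hGNB : GNB_stmt) : D1_stmt := by
  intro p _ χ N B β hχ hN h8 hβ
  have hpp : 0 < p := (Fact.out : p.Prime).pos
  obtain ⟨T, hT⟩ : ∃ T : ℕ, T = p / (8 * N) := ⟨_, rfl⟩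
  have hT1 : 1 ≤ T := by
    rw [hT, Nat.one_le_div_iff (by positivity)]
    exact h8
  have hT8 : 8 * T * N ≤ p := by
    have h1 := Nat.div_mul_le_self p (8 * N)
    rw [← hT] at h1
    calc 8 * T * N = T * (8 * N) := by ring
      _ ≤ p := h1
  have hT16 : p ≤ 16 * N * T := by
    have h1 : p < 8 * N * (T + 1) := by
      rw [hT]
      exact Nat.lt_mul_div_succ p (by positivity)
    have h2 : 8 * N * (T + 1) ≤ 16 * N * T := by
      have h3 : 8 * N * 1 ≤ 8 * N * T := Nat.mul_le_mul_left _ hT1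
      calc 8 * N * (T + 1) = 8 * N * T + 8 * N * 1 := by ring
        _ ≤ 8 * N * T + 8 * N * T := by omega
        _ = 16 * N * T := by ring
    omega
  have hN0 : (0 : ℝ) < N := by exact_mod_cast hN
  have hT0 : (0 : ℝ) < T := by exact_mod_cast hT1
  have hp0 : (0 : ℝ) < p := by exact_mod_cast hpp
  obtain ⟨R, hR⟩ : ∃ R : ℝ, R = ((cells N B).card : ℝ) := ⟨_, rfl⟩
  obtain ⟨S, hSd⟩ : ∃ S : ℝ, S = ∑ j ∈ cells N B, ((cell N B j).card : ℝ) ^ 2 := ⟨_, rfl⟩
  have hR0 : 0 ≤ R := by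
    rw [hR]
    positivity
  have hS0 : 0 ≤ S := by
    rw [hSd]
    positivity
  have hM0 : 0 ≤ T * R * p * B.card + 300 * Real.sqrt p * (T : ℝ) ^ 2 * Real.sqrt R * S := by positivity
  -- step 1 and 2
  have h1 := D1_maj hMAJ p N T (FB χ B β) hT1 hN hT8
  rw [hPGS p χ T B β hχ hT1] at h1
  -- step 3
  have h2 := hTAY p (fun k : ℕ => (-(2 * Real.pi * T * N / p : ℝ) * Complex.I) ^ k / (k.factorial : ℂ))
    (fun k t => GN χ N T B (fun s => ((s : ℝ) / T) ^ k)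
      (fun b => β b * ((((b.val % N : ℕ) : ℝ) / N : ℝ) : ℂ) ^ k) t)
    (fun t => ∑ s ∈ range T, χ⁻¹ (t - (s : ZMod p)) * ft B β (t - (s : ZMod p)))
    (T * R * p * B.card + 300 * Real.sqrt p * (T : ℝ) ^ 2 * Real.sqrt R * S)
    (fun k => D1_norm p N T k hpp hT8) (fun t => hEXP p χ N T B β t hN hT1) hM0 ?_
  · have h3 : 2 * ((∑ t : ZMod p, ‖∑ s ∈ range T, χ⁻¹ (t - (s : ZMod p)) * ft B β (t - (s : ZMod p))‖ ^ 2) / (T : ℝ) ^ 2) ≤
        2 * ((8 * (T * R * p * B.card + 300 * Real.sqrt p * (T : ℝ) ^ 2 * Real.sqrt R * S)) / (T : ℝ) ^ 2) := by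
      refine mul_le_mul_of_nonneg_left ?_ (by norm_num)
      exact div_le_div_of_nonneg_right h2 (by positivity)
    refine (h1.trans h3).trans ?_
    rw [← hR, ← hSd, Real.sqrt_mul hp0.le]
    have h4 : 2 * ((8 * (T * R * p * B.card + 300 * Real.sqrt p * (T : ℝ) ^ 2 * Real.sqrt R * S)) / (T : ℝ) ^ 2) =
        16 * (p / T) * (R * B.card) + 4800 * (Real.sqrt p * Real.sqrt R * S) := by
      field_simp
      ring
    rw [h4]
    have h5 : (p : ℝ) / T ≤ 16 * N := by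
      rw [div_le_iff₀ hT0]
      exact_mod_cast hT16
    have h6 : 0 ≤ R * B.card := by positivity
    have h7 : 0 ≤ Real.sqrt p * Real.sqrt R * S := by positivity
    have h8 : (p : ℝ) / T * (R * B.card) ≤ 16 * N * (R * B.card) := mul_le_mul_of_nonneg_right h5 h6
    have h9 : 0 ≤ (N : ℝ) * (R * B.card) := by positivity
    nlinarith
  · intro k
    have hw : ∀ s : ℕ, 0 ≤ (if s < T then ((s : ℝ) / T) ^ k else 0) ∧ (if s < T then ((s : ℝ) / T) ^ k else 0) ≤ 1 := by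
      intro s
      split_ifs with hs
      · have h3 : (s : ℝ) ≤ T := by exact_mod_cast hs.le
        exact ⟨by positivity, pow_le_one₀ (by positivity) ((div_le_one hT0).2 h3)⟩
      · exact ⟨le_refl _, zero_le_one⟩
    have hγ : ∀ b : ZMod p, ‖β b * ((((b.val % N : ℕ) : ℝ) / N : ℝ) : ℂ) ^ k‖ ≤ 1 := by
      intro b
      have h3 : (((b.val % N : ℕ) : ℝ) / N : ℝ) ≤ 1 := by
        rw [div_le_one hN0]
        exact_mod_cast (Nat.mod_lt _ hN).le
      have h4 : (0 : ℝ) ≤ (((b.val % N : ℕ) : ℝ) / N : ℝ) := by positivity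
      rw [norm_mul, norm_pow, Complex.norm_real, Real.norm_of_nonneg h4]
      exact mul_le_one₀ (hβ b) (by positivity) (pow_le_one₀ h4 h3)
    have h3 := hGNB p χ N T B (fun s => if s < T then ((s : ℝ) / T) ^ k else 0)
      (fun b => β b * ((((b.val % N : ℕ) : ℝ) / N : ℝ) : ℂ) ^ k) hχ hN hT1 hT8 hT16 hw hγ
    rw [← hR, ← hSd] at h3
    refine le_trans (le_of_eq ?_) h3
    refine sum_congr rfl fun t _ => ?_
    rw [D1_GN χ N T B (fun s => ((s : ℝ) / T) ^ k) (fun s => if s < T then ((s : ℝ) / T) ^ k else 0) _ t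
      fun s hs => (if_pos hs).symm]

end Pool.Agent.OT
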