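import Pool.Agent.helper64.OT.SpecW

/-!
# Project OT (MP_f6e9a2_nt), row RRG: a polynomial on which the resultant character is not trivial
-/

set_option autoImplicit false

namespace Pool.Agent.OT

open Finset Polynomial Pool.Agent.helper82.Weil Pool.Agent.helper82.KL

theorem RRG (hRRE : RRE_stmt) (hRRN : RRN_stmt) : RRG_stmt := by
  intro p _ χ f hχ hf hsep hdeg
  obtain ⟨f₁, hm1, hirr, hdvd⟩ := exists_monic_irreducible_factor f (not_isUnit_of_natDegree_pos f hdeg)
  obtain ⟨h, rfl⟩ := hdvd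
  have hmh : h.Monic := hm1.of_mul_monic_left hf
  obtain ⟨a, b, hab⟩ := hsep.isCoprime
  have hF : Fact (Irreducible f₁) := ⟨hirr⟩
  have hfin : Module.Finite (ZMod p) (AdjoinRoot f₁) := (AdjoinRoot.powerBasis hm1.ne_zero).finite
  have hfin' : Finite (AdjoinRoot f₁) := Module.finite_of_finite (ZMod p)
  let _ : Fintype (AdjoinRoot f₁) := Fintype.ofFinite _
  obtain ⟨c, hc⟩ := MulChar.ne_one_iff.1 hχ
  obtain ⟨y, hy⟩ := FiniteField.norm_surjective (ZMod p) (AdjoinRoot f₁) (c : ZMod p)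
  obtain ⟨g₁, hg1⟩ := AdjoinRoot.mk_surjective y
  have hae : ∀ g : (ZMod p)[X], aeval (AdjoinRoot.root f₁) g = AdjoinRoot.mk f₁ g := fun g => AdjoinRoot.aeval_eq g
  have hmin : minpoly (ZMod p) (AdjoinRoot.root f₁) = f₁ := by
    rw [AdjoinRoot.minpoly_root hm1.ne_zero, hm1.leadingCoeff, inv_one, C_1, mul_one]
  have hrank : Module.finrank (ZMod p) (AdjoinRoot f₁) = f₁.natDegree := by
    rw [(AdjoinRoot.powerBasis hm1.ne_zero).finrank, AdjoinRoot.powerBasis_dim]
  have hd1 : 0 < f₁.natDegree := hirr.natDegree_pos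
  -- `Res(f₁, g₀) = c`
  have h1 : resultant f₁ (1 + h * (b * (g₁ - 1))) = (c : ZMod p) := by
    have h2 := hRRN p (AdjoinRoot f₁) (AdjoinRoot.root f₁) (1 + h * (b * (g₁ - 1)))
    rw [hmin, hrank, Nat.div_self hd1, pow_one] at h2
    rw [← h2, hae]
    have h3 : AdjoinRoot.mk f₁ (1 + h * (b * (g₁ - 1))) = y := by
      have h4 : 1 + h * (b * (g₁ - 1)) = g₁ + f₁ * (a * (1 - g₁)) := by
        linear_combination (g₁ - 1) * hab
      rw [h4, map_add, map_mul, AdjoinRoot.mk_self, zero_mul, add_zero, hg1]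
    rw [h3, hy]
  -- `Res(h, g₀) = 1`
  have h2 : resultant h (1 + h * (b * (g₁ - 1))) = 1 := by
    have h3 := hRRE p h.SplittingField h (1 + h * (b * (g₁ - 1))) hmh (SplittingField.splits h)
    apply (algebraMap (ZMod p) h.SplittingField).injective
    rw [h3, map_one]
    apply Multiset.prod_eq_one
    intro z hz
    rw [Multiset.mem_map] at hz
    obtain ⟨β, hβ, rfl⟩ := hz
    have h4 : aeval β h = 0 := by
      have h5 := (mem_roots'.1 hβ).2
      rw [IsRoot.def, eval_map_algebraMap] at h5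
      exact h5
    rw [map_add, map_mul, h4, zero_mul, map_one, add_zero]
  have h3 : resultant (f₁ * h) (1 + h * (b * (g₁ - 1))) = (c : ZMod p) := by
    rw [hm1.natDegree_mul hmh, resultant_mul_left _ _ _ _ le_rfl, h1, h2, mul_one]
  refine ⟨1 + h * (b * (g₁ - 1)), ?_, ?_⟩
  · rw [h3]
    exact c.ne_zero
  · unfold LR
    rw [h3]
    exact hc

end Pool.Agent.OT
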